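import Pool.Agent.Work.MP_85f59e_co.Five.Reduce

namespace Pool.Agent.Results.MP_85f59e_co.OrderFive

open Pool.Agent.Work.MP_85f59e_co Filter

/-- There is `c < 5/2` with `log₂ N_5(n) ≤ c^n` for all large `n`. -/
theorem result : ∃ c : ℝ, c < 5 / 2 ∧
    ∀ᶠ n : ℕ in atTop, Real.logb 2 (numMDS 5 n) ≤ c ^ n :=
  Five.five_upper

end Pool.Agent.Results.MP_85f59e_co.OrderFive
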