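import Pool.Agent.Work.MP_85f59e_co.Asymp

namespace Pool.Agent.Results.MP_85f59e_co.SharpUpper

open Pool.Agent.Work.MP_85f59e_co Filter

/-- For every `q ≥ 2` and `ε > 0`, for all large `n`:
`log₂ N_q(n) ≤ (1 + ε) ⌊q/2⌋ (q/2)^(n-2)`. -/
theorem result (q : ℕ) (hq : 2 ≤ q) (ε : ℝ) (hε : 0 < ε) :
    ∀ᶠ n : ℕ in atTop, Real.logb 2 (numMDS q n)
      ≤ (1 + ε) * ((q / 2 : ℕ) : ℝ) * ((q : ℝ) / 2) ^ (n - 2) :=
  sharp_upper q hq ε hε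

end Pool.Agent.Results.MP_85f59e_co.SharpUpper
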