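import Pool.Agent.Work.MP_85f59e_co.U.Final

namespace Pool.Agent.Results.MP_85f59e_co.UniformAsymptotic

open Pool.Agent.Work.MP_85f59e_co

/-- For all `q ≥ 2` and `n ≥ 2`, the ratio `log₂ N_q(n) / (q/2)^(n-1)` differs from `1` by at most
`100 q² 0.999^n` when `q` is even and by at most `100 q² 0.999^n + min(1, 9 n / q)` when `q` is
odd. -/
theorem result (q n : ℕ) (hq : 2 ≤ q) (hn : 2 ≤ n) :
    |Real.logb 2 (numMDS q n) / ((q : ℝ) / 2) ^ (n - 1) - 1|
      ≤ 100 * (q : ℝ) ^ 2 * (999 / 1000) ^ n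
        + (if Even q then 0 else min 1 (9 * (n : ℝ) / q)) :=
  U.uniform_ratio q n hq (by omega)

end Pool.Agent.Results.MP_85f59e_co.UniformAsymptotic
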